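import Pool.Agent.Helper18.OWN.Main

/-!
MP_2a19da_gt, Q1: two finite 2-complexes `K`, `L` such that for every number `n` of spheres and all base
points the one-point unions of `K` and of `L` with `n` two-dimensional spheres are homotopy equivalent if
and only if `2 ≤ n`.
-/

set_option autoImplicit false

open Set Topology

namespace Pool.Agent.Results.MP_2a19da_gt.CancellationThreshold

/-- the 2-sphere: the unit sphere of the euclidean space of dimension 3 -/
abbrev S2 : Type := ↥(Metric.sphere (0 : EuclideanSpace ℝ (Fin 3)) 1)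

/-- The one-point union of `K` with `n` two-dimensional spheres: the quotient space of the disjoint
union of `K` and `n` copies of `S2`, in which the base point `k` of `K` and the base points `s i` of the
spheres are identified (the relation generates this identification). -/
abbrev Wedge (K : Type) [TopologicalSpace K] (k : K) (n : ℕ) (s : Fin n → S2) : Type :=
  Quot (fun a b : K ⊕ (Fin n × S2) => a = Sum.inl k ∧ ∃ i, b = Sum.inr (i, s i))

theorem Wedge_eq (K : Type) [TopologicalSpace K] (k : K) (n : ℕ) (s : Fin n → S2) :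
    (fun a b : K ⊕ (Fin n × S2) => a = Sum.inl k ∧ ∃ i, b = Sum.inr (i, s i)) =
      fun a b : K ⊕ (Fin n × S2) => a = Sum.inl k ∧
        ∃ y ∈ Pool.Agent.Helper18.OWN.As s, b = Sum.inr y := by
  funext a b
  refine propext ⟨?_, ?_⟩
  · rintro ⟨ha, i, hb⟩
    exact ⟨ha, (i, s i), rfl, hb⟩
  · rintro ⟨ha, ⟨i, x⟩, hy, hb⟩
    have hx : x = s i := hy
    exact ⟨ha, i, by rw [hb, hx]⟩

theorem quot_homeo {α : Type} [TopologicalSpace α] (r r' : α → α → Prop) (h : r = r') :
    Nonempty (Quot r ≃ₜ Quot r') := by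
  subst h
  exact ⟨Homeomorph.refl _⟩

/-- There are two Hausdorff spaces `K` and `L`, each a connected finite CW complex with exactly one
0-cell, six 1-cells, ten 2-cells and no other cell, such that for every `n` and every choice of base
points in `K`, in `L` and in the spheres the one-point unions of `K` and of `L` with `n` 2-spheres are
homotopy equivalent if and only if `2 ≤ n`. -/
theorem result :
    ∃ (K L : Type) (_ : TopologicalSpace K) (_ : TopologicalSpace L) (_ : T2Space K)
      (_ : T2Space L) (_ : Topology.CWComplex (univ : Set K))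
      (_ : Topology.CWComplex (univ : Set L)),
      ConnectedSpace K ∧ ConnectedSpace L ∧
      (Nat.card (Topology.CWComplex.cell (univ : Set K) 0) = 1 ∧
        Nat.card (Topology.CWComplex.cell (univ : Set K) 1) = 6 ∧
        Nat.card (Topology.CWComplex.cell (univ : Set K) 2) = 10 ∧
        ∀ m : ℕ, 2 < m → IsEmpty (Topology.CWComplex.cell (univ : Set K) m)) ∧
      (Nat.card (Topology.CWComplex.cell (univ : Set L) 0) = 1 ∧
        Nat.card (Topology.CWComplex.cell (univ : Set L) 1) = 6 ∧
        Nat.card (Topology.CWComplex.cell (univ : Set L) 2) = 10 ∧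
        ∀ m : ℕ, 2 < m → IsEmpty (Topology.CWComplex.cell (univ : Set L) m)) ∧
      ∀ (k : K) (l : L) (n : ℕ) (s t : Fin n → S2),
        Nonempty (ContinuousMap.HomotopyEquiv (Wedge K k n s) (Wedge L l n t)) ↔ 2 ≤ n := by
  obtain ⟨cK, hK⟩ := Pool.Agent.Helper18.OWN.cw_count Pool.Agent.Helper74.SS.RK
  obtain ⟨cL, hL⟩ := Pool.Agent.Helper18.OWN.cw_count Pool.Agent.Helper74.SS.RL
  have pK := Pool.Agent.Helper18.OWN.pathConn Pool.Agent.Helper74.SS.RK
  have pL := Pool.Agent.Helper18.OWN.pathConn Pool.Agent.Helper74.SS.RL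
  refine ⟨↥(Pool.Agent.Helper74.SS.XX Pool.Agent.Helper74.SS.RK),
    ↥(Pool.Agent.Helper74.SS.XX Pool.Agent.Helper74.SS.RL), inferInstance, inferInstance,
    inferInstance, inferInstance, cK, cL, inferInstance, inferInstance, hK, hL, ?_⟩
  intro k l n s t
  obtain ⟨a⟩ := quot_homeo _ _
    (Wedge_eq ↥(Pool.Agent.Helper74.SS.XX Pool.Agent.Helper74.SS.RK) k n s)
  obtain ⟨b⟩ := quot_homeo _ _
    (Wedge_eq ↥(Pool.Agent.Helper74.SS.XX Pool.Agent.Helper74.SS.RL) l n t)
  rw [← Pool.Agent.Helper18.OWN.threshold n k l s t]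
  constructor
  · rintro ⟨e⟩
    exact ⟨(a.symm.toHomotopyEquiv.trans e).trans b.toHomotopyEquiv⟩
  · rintro ⟨e⟩
    exact ⟨(a.toHomotopyEquiv.trans e).trans b.symm.toHomotopyEquiv⟩

end Pool.Agent.Results.MP_2a19da_gt.CancellationThreshold
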